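import Pool.Agent.H33R3.Bom.Stmts2
import Pool.Agent.H805R3.BomF

set_option autoImplicit false

/-! Task F2 of project H33-BOM, part 2 (helper703; modelled on `Pool.Agent.H805R3.BomF`) -/

namespace Pool.Agent.H703R3.Bom2

open Complex Metric Set Filter Topology Pool.Agent.H33R3.Bom Pool.Agent.H805R3.BomF

theorem log_le_split (a : ℂ) (ha : 1 + a ≠ 0) :
    Real.log ‖1 + a‖ ≤ |a.re| + a.im ^ 2 / 2 := by
  have h1 : ‖1 + a‖ ^ 2 = (1 + a.re) ^ 2 + a.im ^ 2 := by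
    rw [← Complex.normSq_eq_norm_sq, Complex.normSq_apply]
    simp only [add_re, one_re, add_im, one_im]
    ring
  have h0 : 0 < ‖1 + a‖ := norm_pos_iff.2 ha
  have hα : 0 ≤ |a.re| := abs_nonneg _
  have h2 : ‖1 + a‖ ^ 2 ≤ (1 + |a.re|) ^ 2 * (1 + a.im ^ 2) := by
    rw [h1]
    have h3 : a.re ≤ |a.re| := le_abs_self _
    have h4 : (1 + a.re) ^ 2 ≤ (1 + |a.re|) ^ 2 := by
      apply sq_le_sq'
      · have := neg_abs_le a.re
        linarith
      · linarith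
    have h5 : a.im ^ 2 ≤ (1 + |a.re|) ^ 2 * a.im ^ 2 := by
      have : 1 ≤ (1 + |a.re|) ^ 2 := by nlinarith
      nlinarith [sq_nonneg a.im]
    linarith
  have h3 : Real.log (‖1 + a‖ ^ 2) ≤ Real.log ((1 + |a.re|) ^ 2 * (1 + a.im ^ 2)) :=
    Real.log_le_log (by positivity) h2
  rw [Real.log_pow, Real.log_mul (by positivity) (by positivity), Real.log_pow] at h3
  have h4 : Real.log (1 + |a.re|) ≤ |a.re| := by
    have := Real.log_le_sub_one_of_pos (show 0 < 1 + |a.re| by positivity)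
    linarith
  have h5 : Real.log (1 + a.im ^ 2) ≤ a.im ^ 2 := by
    have := Real.log_le_sub_one_of_pos (show 0 < 1 + a.im ^ 2 by positivity)
    linarith
  push_cast at h3
  linarith

theorem neg_log_le {v t : ℝ} (ht : t ≤ 1 / 2) (ht0 : 0 ≤ t) (hv : 1 - t ≤ v) :
    -Real.log v ≤ 2 * t := by
  have hv0 : 0 < v := by linarith
  have h1 := Real.one_sub_inv_le_log_of_pos hv0
  have h2 : v⁻¹ ≤ (1 - t)⁻¹ := inv_anti₀ (by linarith) hv
  have h3 : (1 - t)⁻¹ ≤ 1 + 2 * t := by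
    rw [inv_le_iff_one_le_mul₀ (by linarith)]
    nlinarith
  linarith

theorem quad_ineq {w B C g : ℝ} (hg : 0 ≤ g) (hB : 0 ≤ B) (hC : C ≤ g ^ 2)
    (h : w ^ 2 ≤ B * w + C) : w ≤ B + g := by
  by_contra hcon
  push Not at hcon
  have h1 : 0 < w - B - g := by linarith
  have h2 : 0 < w := by linarith
  nlinarith [mul_pos h1 h2, mul_nonneg hg hB, mul_nonneg hg h1.le]

theorem alg {c d ε q u lam : ℝ} (hc : c ≠ 0) (hd : d ≠ 0) :
    c ^ 2 * (ε * (q * u / (2 * c) + q ^ 2 * (ε * lam) / c ^ 2 / 2 + 2 * (q * u / (2 * d)))) =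
      q * (ε * (1 / 2 + c / d) * (u * c)) + q ^ 2 * (ε ^ 2 * lam / 2) := by
  have h1 : c ^ 2 * (q ^ 2 * (ε * lam) / c ^ 2 / 2) = q ^ 2 * (ε * lam) / 2 := by
    field_simp
  have h2 : c ^ 2 * (q * u / (2 * c)) = q * u * c / 2 := by
    field_simp
  have h3 : c ^ 2 * (2 * (q * u / (2 * d))) = q * u * c * (c / d) := by
    field_simp
  calc c ^ 2 * (ε * (q * u / (2 * c) + q ^ 2 * (ε * lam) / c ^ 2 / 2 + 2 * (q * u / (2 * d))))
      = ε * (c ^ 2 * (q * u / (2 * c)) + c ^ 2 * (q ^ 2 * (ε * lam) / c ^ 2 / 2) +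
        c ^ 2 * (2 * (q * u / (2 * d)))) := by ring
    _ = _ := by
      rw [h1, h2, h3]
      ring

theorem taskF2 : TaskF2 := by
  intro hB hStar Y hY ζ hζ
  obtain ⟨hep, hbd⟩ := hB Y hY
  have hζ1 : ‖ζ‖ < 1 := by simpa using hζ
  have hqlt : ‖ζ‖ ^ 2 < 1 := by
    have := norm_nonneg ζ
    nlinarith
  have hLa : 0 ≤ La ‖ζ‖ := by
    unfold La
    have : Real.log (1 - ‖ζ‖ ^ 2) ≤ 0 :=
      Real.log_nonpos (by linarith) (by have := sq_nonneg ‖ζ‖; linarith)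
    linarith
  have hrhs : 0 ≤ 4 * ep Y * (1 + La ‖ζ‖) * (|ζ.im| + (1 - ‖ζ‖ ^ 2)) := by
    have := abs_nonneg ζ.im
    have : 0 ≤ |ζ.im| + (1 - ‖ζ‖ ^ 2) := by linarith
    positivity
  by_cases hx : ζ.re = 0
  · simp only [hx, zero_mul, abs_zero, mul_zero]
    exact hrhs
  by_cases hy : ζ.im = 0
  · simp only [hy, mul_zero, abs_zero, zero_mul]
    simp only [hy, abs_zero] at hrhs
    exact hrhs
  have hS := hStar Y hY ζ hζ hx hy
  have hζc : (starRingEnd ℂ) ζ ∈ ball (0 : ℂ) 1 := by simpa using hζ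
  have hζ0 : ζ ≠ 0 := fun h => hx (by rw [h]; simp)
  have hζc0 : (starRingEnd ℂ) ζ ≠ 0 := by simpa using hζ0
  have hb1 := hbd ζ hζ
  have hb2 := hbd _ hζc
  have hG1 := G_eq hY hζ0
  have hG2 := G_eq hY hζc0
  have hnc : ‖(starRingEnd ℂ) ζ‖ = ‖ζ‖ := by simp
  rw [hnc] at hb2
  rw [hG1, hG2] at hS
  have hqeq : ‖ζ‖ ^ 2 = ζ.re ^ 2 + ζ.im ^ 2 := by
    rw [← Complex.normSq_eq_norm_sq, Complex.normSq_apply]; ring
  have hUU : UU Y ζ = hh Y ζ + (starRingEnd ℂ) (hh Y ((starRingEnd ℂ) ζ)) := rfl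
  rw [hUU]
  set h : ℂ := hh Y ζ with hh1
  set h' : ℂ := hh Y ((starRingEnd ℂ) ζ) with hh2
  set U : ℂ := h + (starRingEnd ℂ) h' with hU
  set x := ζ.re with hxd
  set y := ζ.im with hyd
  have hq0 : 0 < ‖ζ‖ ^ 2 := by have := norm_pos_iff.2 hζ0; positivity
  have hq1 : ‖ζ‖ ^ 2 < 1 := hqlt
  set lam := La ‖ζ‖ with hlam
  set q := ‖ζ‖ ^ 2 with hq
  set ε := ep Y with hε
  have hw0 : 0 < 1 - q := by linarith
  have hq0' : q ≠ 0 := hq0.ne'
  have hxy : x ^ 2 ≤ q := by rw [hqeq]; nlinarith [sq_nonneg y]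
  have hyx : y ^ 2 ≤ q := by rw [hqeq]; nlinarith [sq_nonneg x]
  have hax : 0 < |x| := abs_pos.2 hx
  have hay : 0 < |y| := abs_pos.2 hy
  have hx1 : |x| ≤ 1 := by
    rw [← sq_le_one_iff₀ (abs_nonneg x), sq_abs]; linarith
  have hy1 : |y| ≤ 1 := by
    rw [← sq_le_one_iff₀ (abs_nonneg y), sq_abs]; linarith
  -- the two ratios
  set a : ℂ := ((q / (2 * x * (1 - q)) : ℝ) : ℂ) * (h + h') with ha
  set b : ℂ := ((q / (2 * y * (1 + q)) : ℝ) : ℂ) * (I * (h - h')) with hb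
  have hζr : ζ = (x : ℂ) + (y : ℂ) * I := (Complex.re_add_im ζ).symm
  have hζcr : (starRingEnd ℂ) ζ = (x : ℂ) - (y : ℂ) * I := by
    rw [hζr]; simp [sub_eq_add_neg]
  have hqc : (q : ℂ) = (x : ℂ) ^ 2 + (y : ℂ) ^ 2 := by
    rw [hqeq]; push_cast; ring
  have hqc0 : (q : ℂ) ≠ 0 := by exact_mod_cast hq0'
  have hxc0 : (x : ℂ) ≠ 0 := by exact_mod_cast hx
  have hyc0 : (y : ℂ) ≠ 0 := by exact_mod_cast hy
  have hwc0 : (1 : ℂ) - (q : ℂ) ≠ 0 := by
    have : ((1 - q : ℝ) : ℂ) ≠ 0 := by exact_mod_cast hw0.ne'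
    simpa using this
  have hwc1 : (1 : ℂ) + (q : ℂ) ≠ 0 := by
    have : ((1 + q : ℝ) : ℂ) ≠ 0 := by
      have : (1 + q : ℝ) ≠ 0 := by positivity
      exact_mod_cast this
    simpa using this
  have hinv1 : ζ⁻¹ = (starRingEnd ℂ) ζ / q := by
    rw [Complex.inv_def, Complex.normSq_eq_norm_sq, ← hq]
    push_cast
    rw [div_eq_mul_inv]
  have hinv2 : ((starRingEnd ℂ) ζ)⁻¹ = ζ / q := by
    rw [← map_inv₀, hinv1]
    simp
  have hsum : (h + ζ⁻¹ - ζ) + (h' + ((starRingEnd ℂ) ζ)⁻¹ - (starRingEnd ℂ) ζ)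
      = ((2 * x * (1 - q) / q : ℝ) : ℂ) * (1 + a) := by
    rw [hinv1, hinv2, ha]
    push_cast
    have e1 : (starRingEnd ℂ) ζ + ζ = 2 * (x : ℂ) := by rw [hζcr]; nth_rw 1 [hζr]; ring
    have e2 : h + (starRingEnd ℂ) ζ / ↑q - ζ + (h' + ζ / ↑q - (starRingEnd ℂ) ζ)
        = (h + h') + ((starRingEnd ℂ) ζ + ζ) * (1 / q - 1) := by ring
    rw [e2, e1]
    field_simp
    ring
  have hdif : (h + ζ⁻¹ - ζ) - (h' + ((starRingEnd ℂ) ζ)⁻¹ - (starRingEnd ℂ) ζ)
      = ((2 * y * (1 + q) / q : ℝ) : ℂ) * (-I) * (1 + b) := by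
    rw [hinv1, hinv2, hb]
    push_cast
    have e1 : (starRingEnd ℂ) ζ - ζ = -2 * (y : ℂ) * I := by rw [hζcr]; nth_rw 1 [hζr]; ring
    have e2 : h + (starRingEnd ℂ) ζ / ↑q - ζ - (h' + ζ / ↑q - (starRingEnd ℂ) ζ)
        = (h - h') + ((starRingEnd ℂ) ζ - ζ) * (1 / q + 1) := by ring
    rw [e2, e1]
    field_simp
    ring_nf
    rw [Complex.I_sq]
    ring
  rw [hsum, hdif] at hS
  rw [norm_mul, norm_mul, norm_mul, Complex.norm_real, Complex.norm_real, norm_neg, Complex.norm_I,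
    Real.norm_eq_abs, Real.norm_eq_abs, abs_div, abs_div, abs_mul, abs_mul, abs_mul, abs_mul,
    abs_two, abs_of_pos hw0, abs_of_pos hq0, abs_of_pos (by positivity : (0:ℝ) < 1 + q)] at hS
  -- norms
  have hμ : ‖h + h'‖ ^ 2 ≤ 4 * (ε * lam) := by
    have h1 : ‖h + h'‖ ^ 2 ≤ 2 * (‖h‖ ^ 2 + ‖h'‖ ^ 2) :=
      young_ineq (norm_nonneg _) (norm_nonneg _) (norm_nonneg _) (norm_add_le h h')
    linarith
  have hμ3 : ‖U‖ ^ 2 ≤ 4 * (ε * lam) := by
    have h1 : ‖U‖ ^ 2 ≤ 2 * (‖h‖ ^ 2 + ‖h'‖ ^ 2) := by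
      have h2 := norm_add_le h ((starRingEnd ℂ) h')
      rw [← hU] at h2
      have h3 : ‖(starRingEnd ℂ) h'‖ = ‖h'‖ := by simp
      rw [h3] at h2
      exact young_ineq (norm_nonneg _) (norm_nonneg _) (norm_nonneg _) h2
    linarith
  have har : a.re = q / (2 * x * (1 - q)) * U.re := by
    rw [ha, Complex.re_ofReal_mul, hU]
    simp
  have hai : a.im = q / (2 * x * (1 - q)) * (h + h').im := by
    rw [ha, Complex.im_ofReal_mul]
  have hbr : b.re = -(q / (2 * y * (1 + q)) * U.im) := by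
    rw [hb, Complex.re_ofReal_mul, hU]
    simp
    ring
  rw [abs_mul]
  set u := ‖U‖ with hu
  have hu0 : 0 ≤ u := norm_nonneg _
  have hq1' : 0 < 1 + q := by linarith
  set c := |x| * (1 - q) with hc
  set d := |y| * (1 + q) with hd
  have hc0 : 0 < c := by positivity
  have hd0 : 0 < d := by positivity
  have hare : |a.re| ≤ q * u / (2 * c) := by
    rw [har, abs_mul, abs_div, abs_mul, abs_mul, abs_two, abs_of_pos hw0, abs_of_pos hq0]
    have h1 := Complex.abs_re_le_norm U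
    rw [← hu] at h1
    calc q / (2 * |x| * (1 - q)) * |U.re| ≤ q / (2 * |x| * (1 - q)) * u := by gcongr
      _ = q * u / (2 * c) := by rw [hc]; field_simp
  have haim : a.im ^ 2 ≤ q ^ 2 * (ε * lam) / c ^ 2 := by
    rw [hai, mul_pow, div_pow]
    have h1 : (h + h').im ^ 2 ≤ 4 * (ε * lam) := by
      have h2 := Complex.abs_im_le_norm (h + h')
      have h3 : (h + h').im ^ 2 ≤ ‖h + h'‖ ^ 2 := by
        rw [← sq_abs]
        exact pow_le_pow_left₀ (abs_nonneg _) h2 2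
      linarith
    calc q ^ 2 / (2 * x * (1 - q)) ^ 2 * (h + h').im ^ 2
        ≤ q ^ 2 / (2 * x * (1 - q)) ^ 2 * (4 * (ε * lam)) := by gcongr
      _ = q ^ 2 * (ε * lam) / c ^ 2 := by
          rw [hc, mul_pow |x|, sq_abs]
          field_simp
          ring
  have hbre : |b.re| ≤ q * u / (2 * d) := by
    rw [hbr, abs_neg, abs_mul, abs_div, abs_mul, abs_mul, abs_two, abs_of_pos hq1', abs_of_pos hq0]
    have h1 := Complex.abs_im_le_norm U
    rw [← hu] at h1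
    calc q / (2 * |y| * (1 + q)) * |U.im| ≤ q / (2 * |y| * (1 + q)) * u := by gcongr
      _ = q * u / (2 * d) := by rw [hd]; field_simp
  by_cases hcase : q * u ≤ d
  swap
  · push Not at hcase
    have h1 : |y| ≤ u := by
      have h2 : |y| ≤ d := by
        rw [hd]
        nlinarith
      have h3 : q * u ≤ u := by nlinarith
      linarith
    have h2 : u * |y| ≤ 4 * (ε * lam) := by
      calc u * |y| ≤ u * u := by gcongr
        _ = u ^ 2 := by ring
        _ ≤ _ := hμ3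
    calc u * (|x| * |y|) * (1 - q) = (u * |y|) * (|x| * (1 - q)) := by ring
      _ ≤ (4 * (ε * lam)) * (1 * (1 - q)) := by gcongr
      _ = 4 * ε * lam * (0 + (1 - q)) := by ring
      _ ≤ 4 * ε * (1 + lam) * (|y| + (1 - q)) := by
          gcongr
          linarith
  · set t := q * u / (2 * d) with ht
    have ht0 : 0 ≤ t := by positivity
    have ht1 : t ≤ 1 / 2 := by
      rw [ht, div_le_iff₀ (by positivity)]
      linarith
    have hbn : 1 - t ≤ ‖1 + b‖ := by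
      have h1 : |(1 + b).re| ≤ ‖1 + b‖ := Complex.abs_re_le_norm _
      have h2 : (1 + b).re = 1 + b.re := by simp
      rw [h2] at h1
      have h3 := le_abs_self (1 + b.re)
      have h4 := neg_abs_le b.re
      linarith
    have hbne : 0 < ‖1 + b‖ := by linarith
    have hlb := neg_log_le ht1 ht0 hbn
    have hfinal : u * c ≤ ε * (1 / 2 + c / d) + ε * (1 + lam) := by
      by_cases ha0 : 1 + a = 0
      · have h5 : u ^ 2 ≤ 0 := by
          rw [ha0] at hS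
          simpa using hS
        have h6 : u = 0 := by
          have := sq_nonneg u
          exact pow_eq_zero_iff (two_ne_zero) |>.1 (le_antisymm h5 this)
        rw [h6, zero_mul]
        positivity
      have hane : 0 < ‖1 + a‖ := norm_pos_iff.2 ha0
      have harg : (1 + q) / (1 - q) * (2 * |x| * (1 - q) / q * ‖1 + a‖ * |y| /
          (2 * |y| * (1 + q) / q * 1 * ‖1 + b‖ * |x|)) = ‖1 + a‖ / ‖1 + b‖ := by
        field_simp
      rw [harg, Real.log_div hane.ne' hbne.ne'] at hS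
      have hla := log_le_split a ha0
      have hmain : u ^ 2 ≤ ε * (q * u / (2 * c) + q ^ 2 * (ε * lam) / c ^ 2 / 2 + 2 * t) := by
        refine hS.trans ?_
        apply mul_le_mul_of_nonneg_left _ hep
        linarith
      apply quad_ineq (C := ε ^ 2 * lam / 2) (by positivity) (by positivity)
      · have : lam / 2 ≤ (1 + lam) ^ 2 := by nlinarith
        calc ε ^ 2 * lam / 2 = ε ^ 2 * (lam / 2) := by ring
          _ ≤ ε ^ 2 * (1 + lam) ^ 2 := by gcongr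
          _ = (ε * (1 + lam)) ^ 2 := by ring
      · calc (u * c) ^ 2 = c ^ 2 * u ^ 2 := by ring
          _ ≤ c ^ 2 * (ε * (q * u / (2 * c) + q ^ 2 * (ε * lam) / c ^ 2 / 2 + 2 * t)) := by gcongr
          _ = q * (ε * (1 / 2 + c / d) * (u * c)) + q ^ 2 * (ε ^ 2 * lam / 2) := by
              rw [ht]
              exact alg hc0.ne' hd0.ne'
          _ ≤ 1 * (ε * (1 / 2 + c / d) * (u * c)) + 1 * (ε ^ 2 * lam / 2) := by
              gcongr
              exact pow_le_one₀ hq0.le hq1.le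
          _ = ε * (1 / 2 + c / d) * (u * c) + ε ^ 2 * lam / 2 := by ring
    have hcd : c / d * |y| ≤ 1 - q := by
      rw [hc, hd, div_mul_eq_mul_div, div_le_iff₀ (by positivity)]
      calc |x| * (1 - q) * |y| ≤ 1 * (1 - q) * |y| := by gcongr
        _ ≤ (1 - q) * (|y| * (1 + q)) := by nlinarith [mul_pos hw0 hay]
    calc u * (|x| * |y|) * (1 - q) = (u * c) * |y| := by rw [hc]; ring
      _ ≤ (ε * (1 / 2 + c / d) + ε * (1 + lam)) * |y| := by gcongr
      _ = ε * (3 / 2 + lam) * |y| + ε * (c / d * |y|) := by ring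
      _ ≤ ε * (3 / 2 + lam) * |y| + ε * (1 - q) := by gcongr
      _ ≤ 4 * ε * (1 + lam) * (|y| + (1 - q)) := by
          have e1 : 0 ≤ ε * |y| := by positivity
          have e2 : 0 ≤ ε * (1 - q) := by positivity
          have e3 : 0 ≤ ε * |y| * lam := by positivity
          have e4 : 0 ≤ ε * (1 - q) * lam := by positivity
          nlinarith

end Pool.Agent.H703R3.Bom2
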